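import Pool.Agent.H77.EA.Targets3
import Pool.Agent.H65.EA.K1
import Pool.Agent.H39.EA.K2

/-! Module XA: change of the ambient group. -/

set_option autoImplicit false

set_option linter.unusedSectionVars false

open scoped Classical ComplexConjugate

namespace Pool.Agent.H48.EA

open AMc AMe

section

variable {Γ' Γ : Type} [Group Γ'] [Group Γ] {i : Γ' →* Γ}

theorem xa_cj (hi : Function.Injective i) (x : Γ') (θ : Γ' → ℂ) :
    cj (i x) (extj i θ) = extj i (cj x θ) := by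
  funext g
  show extj i θ (i x * g * (i x)⁻¹) = _
  by_cases h : ∃ n, i n = g
  · obtain ⟨n, rfl⟩ := h
    rw [H65.EA.extj_apply hi, ← map_inv, ← map_mul, ← map_mul, H65.EA.extj_apply hi]
    rfl
  · rw [H65.EA.extj_of_not i _ h, H65.EA.extj_of_not]
    rintro ⟨m, hm⟩
    apply h
    refine ⟨x⁻¹ * m * x, ?_⟩
    rw [map_mul, map_mul, hm, map_inv]
    group

theorem xa_ext0 (N : Subgroup Γ) (ψ : N → ℂ) : ext0 N ψ = extj N.subtype ψ := by
  funext g
  by_cases h : g ∈ N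
  · have h1 : extj N.subtype ψ (N.subtype ⟨g, h⟩) = ψ ⟨g, h⟩ :=
      H65.EA.extj_apply N.subtype_injective ψ ⟨g, h⟩
    unfold ext0
    rw [dif_pos h]
    exact h1.symm
  · unfold ext0
    rw [dif_neg h, H65.EA.extj_of_not]
    rintro ⟨m, rfl⟩
    exact h m.2

theorem xa_range (N : Subgroup Γ') : (i.comp N.subtype).range = N.map i := by
  rw [MonoidHom.range_comp, Subgroup.range_subtype]

theorem xa_mem (hi : Function.Injective i) (N : Subgroup Γ') (x : Γ') :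
    i x ∈ N.map i ↔ x ∈ N := Subgroup.mem_map_iff_mem hi

theorem xa_one (hi : Function.Injective i) (θ : Γ' → ℂ) : extj i θ 1 = θ 1 := by
  have := H65.EA.extj_apply hi θ 1
  rwa [map_one] at this

theorem xa_conj (θ : Γ' → ℂ) (g : Γ) : conj (extj i θ g) = extj i (fun x => conj (θ x)) g := by
  unfold extj
  split_ifs
  · rfl
  · exact map_zero _

variable [Fintype Γ'] [Fintype Γ]

theorem xa_sum (hi : Function.Injective i) (f : Γ → ℂ) (θ : Γ' → ℂ) :
    ∑ g : Γ, f g * extj i θ g = ∑ x : Γ', f (i x) * θ x := by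
  have h1 : ∑ x : Γ', f (i x) * θ x = ∑ g ∈ Finset.univ.map ⟨i, hi⟩, f g * extj i θ g := by
    rw [Finset.sum_map]
    refine Finset.sum_congr rfl fun x _ => ?_
    rw [show ((⟨i, hi⟩ : Γ' ↪ Γ) x) = i x from rfl, H65.EA.extj_apply hi]
  rw [h1]
  symm
  apply Finset.sum_subset (Finset.subset_univ _)
  intro g _ hg
  rw [H65.EA.extj_of_not, mul_zero]
  rintro ⟨m, rfl⟩
  exact hg (Finset.mem_map_of_mem ⟨i, hi⟩ (Finset.mem_univ m))

variable {F : Type} [Field F]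

/-- restriction of the coefficients -/
noncomputable def xaR (i : Γ' →* Γ) (z : MonoidAlgebra F Γ) : MonoidAlgebra F Γ' :=
  MonoidAlgebra.ofCoeff (Finsupp.equivFunOnFinite.symm fun g => z.coeff (i g))

/-- extension by zero of the coefficients -/
noncomputable def xaE (i : Γ' →* Γ) (z : MonoidAlgebra F Γ') : MonoidAlgebra F Γ :=
  MonoidAlgebra.ofCoeff (Finsupp.equivFunOnFinite.symm fun g =>
    if h : ∃ x, i x = g then z.coeff h.choose else 0)

theorem xaR_coeff (z : MonoidAlgebra F Γ) (x : Γ') : (xaR i z).coeff x = z.coeff (i x) := rfl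

theorem xaE_coeff (hi : Function.Injective i) (z : MonoidAlgebra F Γ') (x : Γ') :
    (xaE i z).coeff (i x) = z.coeff x := by
  show (if h : ∃ y, i y = i x then z.coeff h.choose else 0) = _
  have h : ∃ y, i y = i x := ⟨x, rfl⟩
  rw [dif_pos h, hi h.choose_spec]

theorem xaE_not (z : MonoidAlgebra F Γ') {g : Γ} (h : ¬ ∃ x, i x = g) :
    (xaE i z).coeff g = 0 := by
  show (if h : ∃ y, i y = g then z.coeff h.choose else 0) = _
  rw [dif_neg h]

theorem xaR_E (hi : Function.Injective i) (z : MonoidAlgebra F Γ') : xaR i (xaE i z) = z := by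
  apply MonoidAlgebra.ext
  ext x
  rw [xaR_coeff, xaE_coeff hi]

theorem xaR_mem (hi : Function.Injective i) {N U : Subgroup Γ'} {z : MonoidAlgebra F Γ}
    (hz : z ∈ ZA F (N.map i) (U.map i)) : xaR i z ∈ ZA F N U := by
  refine ⟨fun g hg => ?_, fun u hu g => ?_⟩
  · rw [xaR_coeff]
    exact hz.1 _ fun h => hg ((xa_mem hi N g).1 h)
  · rw [xaR_coeff, xaR_coeff]
    have h := hz.2 (i u) ⟨u, hu, rfl⟩ (i g)
    rwa [← map_inv i, ← map_mul i, ← map_mul i] at h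

theorem xaE_mem (hi : Function.Injective i) {N U : Subgroup Γ'} {z : MonoidAlgebra F Γ'}
    (hz : z ∈ ZA F N U) : xaE i z ∈ ZA F (N.map i) (U.map i) := by
  refine ⟨fun g hg => ?_, ?_⟩
  · by_cases h : ∃ x, i x = g
    · obtain ⟨x, rfl⟩ := h
      rw [xaE_coeff hi]
      exact hz.1 x fun hx => hg ((xa_mem hi N x).2 hx)
    · exact xaE_not z h
  · rintro _ ⟨u, hu, rfl⟩ g
    by_cases h : ∃ x, i x = g
    · obtain ⟨x, rfl⟩ := h
      rw [← map_inv, ← map_mul, ← map_mul, xaE_coeff hi, xaE_coeff hi]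
      exact hz.2 u hu x
    · rw [xaE_not z h, xaE_not]
      rintro ⟨m, hm⟩
      apply h
      refine ⟨u⁻¹ * m * u, ?_⟩
      rw [map_mul, map_mul, hm, map_inv]
      group

theorem xa_lam (π : integralClosure ℤ ℂ →+* F) (hi : Function.Injective i) (θ : Γ' → ℂ)
    (z : MonoidAlgebra F Γ) : lam π (extj i θ) z = lam π θ (xaR i z) := by
  unfold lam
  rw [xa_one hi, xa_sum hi]
  rfl

theorem xa_csum (hi : Function.Injective i) (N : Subgroup Γ') (x : Γ') :
    xaR i (csum F (cls (N.map i) (i x))) = csum F (cls N x) := by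
  apply MonoidAlgebra.ext
  ext y
  rw [xaR_coeff, coeff_csum, coeff_csum]
  have h : i y ∈ cls (N.map i) (i x) ↔ y ∈ cls N x := by
    rw [mem_cls, mem_cls]
    constructor
    · rintro ⟨_, ⟨u, hu, rfl⟩, h⟩
      refine ⟨u, hu, hi ?_⟩
      rw [h, map_mul, map_mul, map_inv]
    · rintro ⟨u, hu, rfl⟩
      exact ⟨i u, ⟨u, hu, rfl⟩, by rw [map_mul, map_mul, map_inv]⟩
  simp only [h]

theorem xa_def (π : integralClosure ℤ ℂ →+* F) (ℓ : ℕ) (hi : Function.Injective i)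
    (N D : Subgroup Γ') (θ : Γ' → ℂ) :
    DefH ℓ N (lam π θ) D ↔ DefH ℓ (N.map i) (lam π (extj i θ)) (D.map i) := by
  have hP : IsPGroup ℓ D ↔ IsPGroup ℓ (D.map i) :=
    ⟨fun h => h.map i, fun h => h.of_equiv (D.equivMapOfInjective i hi).symm⟩
  have hle : D ≤ N ↔ D.map i ≤ N.map i := (Subgroup.map_le_map_iff_of_injective hi).symm
  have hval : ∀ x : Γ', lam π (extj i θ) (csum F (cls (N.map i) (i x))) =
      lam π θ (csum F (cls N x)) := fun x => by rw [xa_lam π hi, xa_csum hi]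
  have hD : ∀ n : Γ', D.map i ≤ Subgroup.centralizer {i n} ↔ D ≤ Subgroup.centralizer {n} := by
    intro n
    constructor
    · intro h m hm
      exact (H39.EA.mem_centralizer_map hi n m).1 (h ⟨m, hm, rfl⟩)
    · rintro h _ ⟨m, hm, rfl⟩
      exact (H39.EA.mem_centralizer_map hi n m).2 (h hm)
  have hidx : ∀ n : Γ', (D.map i).relIndex (Subgroup.centralizer {i n} ⊓ N.map i) =
      D.relIndex (Subgroup.centralizer {n} ⊓ N) := by
    intro n
    have h1 : Subgroup.centralizer {i n} ⊓ N.map i = (Subgroup.centralizer {n} ⊓ N).map i := by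
      ext g
      constructor
      · rintro ⟨h1, ⟨m, hm, rfl⟩⟩
        exact ⟨m, ⟨(H39.EA.mem_centralizer_map hi n m).1 h1, hm⟩, rfl⟩
      · rintro ⟨m, ⟨h1, hm⟩, rfl⟩
        exact ⟨(H39.EA.mem_centralizer_map hi n m).2 h1, ⟨m, hm, rfl⟩⟩
    rw [h1, Subgroup.relIndex_map_map_of_injective _ _ hi]
  unfold DefH
  constructor
  · rintro ⟨h1, h0, ⟨x, hxN, hx1, hx2, hx3⟩, h2⟩
    refine ⟨hP.1 h1, hle.1 h0, ⟨i x, ⟨x, hxN, rfl⟩, ?_, (hD x).2 hx2, ?_⟩, ?_⟩
    · rw [hval]; exact hx1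
    · rw [hidx]; exact hx3
    · rintro _ ⟨y, hyN, rfl⟩ hy
      rw [hval] at hy
      obtain ⟨g, hgN, hg⟩ := h2 y hyN hy
      refine ⟨i g, ⟨g, hgN, rfl⟩, ?_⟩
      rintro _ ⟨d, hd, rfl⟩
      rw [← map_inv, ← map_mul, ← map_mul, H39.EA.mem_centralizer_map hi]
      exact hg d hd
  · rintro ⟨h1, h0, ⟨_, ⟨x, hxN, rfl⟩, hx1, hx2, hx3⟩, h2⟩
    refine ⟨hP.2 h1, hle.2 h0, ⟨x, hxN, ?_, (hD x).1 hx2, ?_⟩, ?_⟩
    · rw [hval] at hx1; exact hx1
    · rw [hidx] at hx3; exact hx3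
    · intro y hyN hy
      rw [← hval] at hy
      obtain ⟨_, ⟨g, hgN, rfl⟩, hg⟩ := h2 (i y) ⟨y, hyN, rfl⟩ hy
      refine ⟨g, hgN, fun d hd => ?_⟩
      rw [← H39.EA.mem_centralizer_map hi, map_mul, map_mul, map_inv]
      exact hg (i d) ⟨d, hd, rfl⟩

end

/-- **Module XA.** -/
theorem xa (hK1 : T_K1) : T_XA := by
  intro F _ π _ ℓ _ _ Γ' Γ _ _ _ _ i hi
  have hinj : Function.Injective (extj i) := by
    intro a b hab
    funext n
    rw [← H65.EA.extj_apply hi a n, hab, H65.EA.extj_apply hi]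
  refine ⟨fun x θ => H65.EA.extj_apply hi θ x, fun x θ => xa_cj hi x θ, fun N U _ => ?_⟩
  have hiN : Function.Injective (i.comp N.subtype) := hi.comp N.subtype_injective
  obtain ⟨-, h1, h2, -⟩ := hK1 N Γ (i.comp N.subtype) hiN
  have h3 : ∀ ψ : N → ℂ, extj i (ext0 N ψ) = extj (i.comp N.subtype) ψ := by
    intro ψ
    rw [xa_ext0]
    exact (hK1 Γ' Γ i hi).2.2.2 N N.subtype N.subtype_injective ψ
  rw [xa_range] at h1 h2
  have h4 : ∀ θ' ∈ IrrS (N.map i), ∃ θ ∈ IrrS N, extj i θ = θ' := by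
    intro θ' hθ'
    obtain ⟨ψ, hψ, rfl⟩ := h2 θ' hθ'
    exact ⟨ext0 N ψ, ⟨ψ, hψ, rfl⟩, h3 ψ⟩
  refine ⟨fun θ => ⟨?_, fun hθ => ?_⟩, h4, fun θ _ θ' _ => ⟨fun h z hz => ?_, fun h z hz => ?_⟩,
    fun θ _ D => xa_def π ℓ hi N D θ, fun χ _ θ _ => ?_⟩
  · rintro ⟨ψ, hψ, rfl⟩
    rw [h3]
    exact (h1 ψ).1 hψ
  · obtain ⟨θ₁, hθ₁, h⟩ := h4 _ hθ
    rw [← hinj h]
    exact hθ₁
  · rw [xa_lam π hi, xa_lam π hi]
    exact h _ (xaR_mem hi hz)
  · have h5 := h _ (xaE_mem hi hz)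
    rwa [xa_lam π hi, xa_lam π hi, xaR_E hi] at h5
  · unfold Over
    have h5 : ∑ g : Γ, extj i χ g * starRingEnd ℂ (extj i θ g) =
        ∑ x : Γ', χ x * starRingEnd ℂ (θ x) := by
      rw [Finset.sum_congr rfl fun g _ => by rw [xa_conj θ g]]
      rw [xa_sum hi]
      exact Finset.sum_congr rfl fun x _ => by rw [H65.EA.extj_apply hi]
    rw [h5]

end Pool.Agent.H48.EA
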