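import Pool.Agent.H77.EA.Targets2
import Pool.Agent.H73.AM.C23

/-! Module GA: Galois conjugates of irreducible characters. -/

set_option autoImplicit false

open scoped Classical

namespace Pool.Agent.H48.EA

open AMc AMe

section lin

variable {V : Type} [AddCommGroup V] [Module ℂ V]

/-- the projection to the eigenspace of `ζ ^ k` -/
noncomputable def ee (f : Module.End ℂ V) (c : ℕ) (ζ : ℂ) (k : ℕ) : Module.End ℂ V :=
  (c : ℂ)⁻¹ • ∑ i ∈ Finset.range c, (ζ⁻¹) ^ (k * i) • f ^ i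

theorem ee_mul (f : Module.End ℂ V) (c : ℕ) (ζ : ℂ) (hζ : IsPrimitiveRoot ζ c) (hc : c ≠ 0)
    (hf : f ^ c = 1) (k : ℕ) : ee f c ζ k * f = ζ ^ k • ee f c ζ k := by
  have hζ0 : ζ ≠ 0 := hζ.ne_zero hc
  unfold ee
  rw [smul_mul_assoc, smul_comm (ζ ^ k)]
  congr 1
  rw [Finset.sum_mul, Finset.smul_sum]
  have h1 : ∀ i ∈ Finset.range c, (ζ⁻¹) ^ (k * i) • f ^ i * f =
      ζ ^ k • ((ζ⁻¹) ^ (k * (i + 1)) • f ^ (i + 1)) := by
    intro i _
    rw [smul_mul_assoc, ← pow_succ, smul_smul]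
    congr 1
    rw [mul_add, mul_one, pow_add, mul_left_comm, ← mul_pow, mul_inv_cancel₀ hζ0, one_pow,
      mul_one]
  rw [Finset.sum_congr rfl h1]
  rw [← Finset.smul_sum, ← Finset.smul_sum]
  congr 1
  have h2 := Finset.sum_range_succ' (fun i => (ζ⁻¹) ^ (k * i) • f ^ i) c
  have h3 := Finset.sum_range_succ (fun i => (ζ⁻¹) ^ (k * i) • f ^ i) c
  rw [h3] at h2
  have h4 : (ζ⁻¹) ^ (k * c) • f ^ c = (ζ⁻¹) ^ (k * 0) • f ^ 0 := by
    rw [hf, mul_zero, pow_zero, pow_zero, mul_comm k c, pow_mul, inv_pow, hζ.pow_eq_one, inv_one,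
      one_pow]
  rw [h4] at h2
  exact (add_right_cancel h2).symm

theorem ee_mul_pow (f : Module.End ℂ V) (c : ℕ) (ζ : ℂ) (hζ : IsPrimitiveRoot ζ c) (hc : c ≠ 0)
    (hf : f ^ c = 1) (k m : ℕ) : ee f c ζ k * f ^ m = ζ ^ (k * m) • ee f c ζ k := by
  induction m with
  | zero => rw [pow_zero, mul_one, mul_zero, pow_zero, one_smul]
  | succ m ih =>
    rw [pow_succ, ← mul_assoc, ih, smul_mul_assoc, ee_mul f c ζ hζ hc hf, smul_smul, mul_add,
      mul_one, pow_add]

theorem ee_idem (f : Module.End ℂ V) (c : ℕ) (ζ : ℂ) (hζ : IsPrimitiveRoot ζ c) (hc : c ≠ 0)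
    (hf : f ^ c = 1) (k : ℕ) : IsIdempotentElem (ee f c ζ k) := by
  have hζ0 : ζ ≠ 0 := hζ.ne_zero hc
  have hc0 : (c : ℂ) ≠ 0 := by exact_mod_cast hc
  unfold IsIdempotentElem
  conv_lhs => rw [show ee f c ζ k * ee f c ζ k = ee f c ζ k *
    ((c : ℂ)⁻¹ • ∑ i ∈ Finset.range c, (ζ⁻¹) ^ (k * i) • f ^ i) from rfl]
  rw [mul_smul_comm, Finset.mul_sum]
  have h1 : ∀ i ∈ Finset.range c, ee f c ζ k * ((ζ⁻¹) ^ (k * i) • f ^ i) = ee f c ζ k := by
    intro i _
    rw [mul_smul_comm, ee_mul_pow f c ζ hζ hc hf, smul_smul, ← mul_pow, inv_mul_cancel₀ hζ0,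
      one_pow, one_smul]
  rw [Finset.sum_congr rfl h1, Finset.sum_const, Finset.card_range, ← Nat.cast_smul_eq_nsmul ℂ,
    smul_smul, inv_mul_cancel₀ hc0, one_smul]

theorem sum_ee (f : Module.End ℂ V) (c : ℕ) (ζ : ℂ) (hζ : IsPrimitiveRoot ζ c) (hc : c ≠ 0) :
    ∑ k ∈ Finset.range c, ee f c ζ k = 1 := by
  have hc0 : (c : ℂ) ≠ 0 := by exact_mod_cast hc
  unfold ee
  rw [← Finset.smul_sum, Finset.sum_comm]
  have h1 : ∀ i ∈ Finset.range c, ∑ k ∈ Finset.range c, (ζ⁻¹) ^ (k * i) • f ^ i =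
      if i = 0 then (c : ℂ) • (1 : Module.End ℂ V) else 0 := by
    intro i hi
    rw [← Finset.sum_smul]
    by_cases h0 : i = 0
    · rw [if_pos h0, h0]
      simp
    · rw [if_neg h0]
      have h2 : ∀ k ∈ Finset.range c, (ζ⁻¹) ^ (k * i) = ((ζ⁻¹) ^ i) ^ k := by
        intro k _
        rw [← pow_mul, mul_comm]
      rw [Finset.sum_congr rfl h2]
      have h3 : (ζ⁻¹) ^ i ≠ 1 := by
        intro h
        rw [inv_pow, inv_eq_one] at h
        have := hζ.dvd_of_pow_eq_one i h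
        have := Nat.le_of_dvd (Nat.pos_of_ne_zero h0) this
        have := Finset.mem_range.1 hi
        omega
      have h4 := geom_sum_mul ((ζ⁻¹) ^ i) c
      have h5 : ((ζ⁻¹) ^ i) ^ c = 1 := by
        rw [← pow_mul, mul_comm, pow_mul, inv_pow, hζ.pow_eq_one, inv_one, one_pow]
      rw [h5, sub_self] at h4
      rcases mul_eq_zero.1 h4 with h6 | h6
      · rw [h6, zero_smul]
      · exact absurd (sub_eq_zero.1 h6) h3
  rw [Finset.sum_congr rfl h1, Finset.sum_ite_eq' (Finset.range c) 0]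
  rw [if_pos (Finset.mem_range.2 (Nat.pos_of_ne_zero hc)), smul_smul, inv_mul_cancel₀ hc0,
    one_smul]

theorem trace_pow [FiniteDimensional ℂ V] (f : Module.End ℂ V) (c : ℕ) (ζ : ℂ)
    (hζ : IsPrimitiveRoot ζ c) (hc : c ≠ 0) (hf : f ^ c = 1) :
    ∃ d : ℕ → ℕ, ∀ m : ℕ, LinearMap.trace ℂ V (f ^ m) =
      ∑ k ∈ Finset.range c, (d k : ℂ) * ζ ^ (k * m) := by
  refine ⟨fun k => Module.finrank ℂ (LinearMap.range (ee f c ζ k)), fun m => ?_⟩
  have h1 : f ^ m = ∑ k ∈ Finset.range c, ζ ^ (k * m) • ee f c ζ k := by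
    conv_lhs => rw [← one_mul (f ^ m), ← sum_ee f c ζ hζ hc, Finset.sum_mul]
    exact Finset.sum_congr rfl fun k _ => ee_mul_pow f c ζ hζ hc hf k m
  rw [h1, map_sum]
  refine Finset.sum_congr rfl fun k _ => ?_
  rw [map_smul, smul_eq_mul, mul_comm]
  congr 1
  exact (LinearMap.IsIdempotentElem.isProj_range _ (ee_idem f c ζ hζ hc hf k)).trace

end lin

theorem gal (c m : ℕ) (hc : c ≠ 0) (hm : c.Coprime m) :
    ∃ (L : Type) (_ : Field L) (i j : L →+* ℂ) (z : L), IsPrimitiveRoot (i z) c ∧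
      j z = i z ^ m := by
  have : NeZero c := ⟨hc⟩
  have : NeZero ((c : ℕ) : ℚ) := ⟨by exact_mod_cast hc⟩
  have hinst : IsCyclotomicExtension {c} ℚ (CyclotomicField c ℚ) := by
    have h0 : (DivisionRing.toRatAlgebra : Algebra ℚ (CyclotomicField c ℚ)) =
        CyclotomicField.algebra c ℚ := Subsingleton.elim _ _
    rw [h0]
    exact CyclotomicField.isCyclotomicExtension c ℚ
  have hzp : IsPrimitiveRoot (IsCyclotomicExtension.zeta c ℚ (CyclotomicField c ℚ)) c :=
    IsCyclotomicExtension.zeta_spec c ℚ (CyclotomicField c ℚ)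
  have hzm := hzp.pow_of_coprime m hm.symm
  have hcyc : Irreducible (Polynomial.cyclotomic c ℚ) :=
    Polynomial.cyclotomic.irreducible_rat (Nat.pos_of_ne_zero hc)
  have i : CyclotomicField c ℚ →ₐ[ℚ] ℂ := IsAlgClosed.lift
  refine ⟨CyclotomicField c ℚ, inferInstance, i.toRingHom,
    (i.comp (IsCyclotomicExtension.fromZetaAut hzm hcyc).toAlgHom).toRingHom,
    IsCyclotomicExtension.zeta c ℚ (CyclotomicField c ℚ),
    hzp.map_of_injective i.toRingHom.injective, ?_⟩
  have h := IsCyclotomicExtension.fromZetaAut_spec hzm hcyc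
  show i (IsCyclotomicExtension.fromZetaAut hzm hcyc
    (IsCyclotomicExtension.zeta c ℚ (CyclotomicField c ℚ))) = _
  rw [h, map_pow]
  rfl

/-- **Module GA.** -/
theorem ga : T_GA := by
  intro N _ _ a ha m hm
  obtain ⟨hirr, -, -, -⟩ := AMx.C1 N a ha
  obtain ⟨n, ρ, hρ, rfl⟩ := ha
  have hc : Nat.card N ≠ 0 := Nat.card_pos.ne'
  obtain ⟨L, _, i, j, z, hζ, hτ⟩ := gal (Nat.card N) m hc hm
  have hi : Function.Injective i := i.injective
  -- the values of the character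
  have key : ∀ g : N, ∃ A : L, i A = ρ.character g ∧ j A = ρ.character (g ^ m) := by
    intro g
    have hf : (ρ g) ^ (Nat.card N) = 1 := by rw [← map_pow, pow_card_eq_one', map_one]
    obtain ⟨d, hd⟩ := trace_pow (ρ g) (Nat.card N) (i z) hζ hc hf
    refine ⟨∑ k ∈ Finset.range (Nat.card N), (d k : L) * z ^ k, ?_, ?_⟩
    · rw [map_sum]
      have h1 := hd 1
      rw [pow_one] at h1
      rw [show ρ.character g = LinearMap.trace ℂ _ (ρ g) from rfl, h1]
      refine Finset.sum_congr rfl fun k _ => ?_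
      rw [map_mul, map_natCast, map_pow, mul_one]
    · rw [map_sum, show ρ.character (g ^ m) = LinearMap.trace ℂ _ (ρ (g ^ m)) from rfl,
        map_pow ρ, hd m]
      refine Finset.sum_congr rfl fun k _ => ?_
      rw [map_mul, map_natCast, map_pow, hτ, ← pow_mul, mul_comm m]
  choose A hA1 hA2 using key
  have hirr' : AMx.IsIrr (fun g : N => ρ.character (g ^ m)) := by
    apply AMx.IsIrr.of_key
    · obtain ⟨r, hr, h1⟩ := hirr.pos
      refine ⟨r, hr, ?_⟩
      simp only [one_pow]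
      exact h1
    · intro g x
      simp only
      rw [conj_pow]
      exact hirr.cf g (x ^ m)
    · rw [← hirr.norm]
      refine Fintype.sum_equiv (powCoprime hm) _ _ fun x => ?_
      simp only [powCoprime_apply, inv_pow]
    · intro x y
      have h1 := hirr.key x y
      have h2 : A x * A y * (Nat.card N : L) = A 1 * ∑ g, A (x * (g * y * g⁻¹)) := by
        apply hi
        rw [map_mul, map_mul, map_mul, map_sum, map_natCast]
        simp only [hA1]
        exact h1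
      have h3 := congrArg j h2
      simp only [map_mul, map_sum, map_natCast] at h3
      simp only [hA2] at h3
      exact h3
  have := AMx.C2 N _ hirr'
  exact this

end Pool.Agent.H48.EA
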